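import Pool.Agent.H4R2.Ham

/-! A finite family of block states which serves all translation invariant vectors. -/

set_option autoImplicit false
set_option linter.unusedSectionVars false

open scoped BigOperators Topology
open Finset Filter
open Pool.Agent.H4R2

noncomputable section

namespace Pool.Agent.T9h50.PL

/-- Translation invariance up to a phase. -/
def TransInv {d L : ℕ} [NeZero L] (ψ : (Site L → Fin d) → ℂ) : Prop :=
  ∀ u : Site L, ∃ c : ℂ, (fun s => ψ (fun v => s (v + u))) = c • ψ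

lemma transInv_of_ground {d L : ℕ} [NeZero L] (B : Finset (ℤ × ℤ))
    (h : Matrix (B → Fin d) (B → Fin d) ℂ) (Δ : ℝ) (ψ : (Site L → Fin d) → ℂ)
    (hψ : IsGappedGround (ham B h L) Δ ψ) : TransInv ψ := by
  intro u
  obtain ⟨E, h1, h2, _⟩ := hψ
  exact h2 _ (ham_eigen_shift B h u ψ E h1)

/-- The entrywise estimate, with the block state. -/
theorem entry_approx (d : ℕ) (hd : 2 ≤ d) (R : Finset (ℤ × ℤ)) (ε : ℝ) (hε : 0 < ε) (M : ℕ)
    [NeZero M] (hM : M = side d R ε) :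
    ∃ L₀ : ℕ, (M + 2) * (M + 2) ≤ L₀ ∧
      ∀ (L : ℕ) [NeZero L], L₀ ≤ L → ∀ ψ : (Site L → Fin d) → ℂ, normSq ψ = 1 →
      TransInv ψ → ∃ Φ : (Fin M × Fin M → Fin d) → ℂ, normSq Φ = 1 ∧
        ∀ (L' : ℕ) [NeZero L'], L₀ ≤ L' → ∀ a b,
          ‖redState R (contract (tens hd Φ) L') a b - redState R ψ a b‖
            ≤ ε / (2 * ((d : ℝ) ^ R.card) ^ 2) := by
  classical
  have hM1 : 2 * R.card + 2 ≤ M := by rw [hM]; unfold side; omega
  have hM2 : 2 * rad R + 2 ≤ M := by rw [hM]; unfold side; omega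
  have hM3 : 16 * ((rad R : ℝ) + 2) * (d : ℝ) ^ (2 * R.card) / ε ≤ M := by
    refine (Nat.le_ceil _).trans ?_
    rw [hM]
    unfold side
    push_cast
    have : (0 : ℝ) ≤ 2 * (R.card : ℝ) + 2 * rad R + 2 := by positivity
    linarith
  clear hM
  refine ⟨(M + 2) * (M + 2) + (M + 3) * R.card + 1, by omega, ?_⟩
  intro L _ hL ψ hψ hT
  let x : R → ℤ × ℤ := fun y => y
  have hr : ∀ i, |(x i).1| ≤ (rad R : ℕ) ∧ |(x i).2| ≤ (rad R : ℕ) := by
    intro i
    have h1 : max (x i).1.natAbs (x i).2.natAbs ≤ rad R :=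
      Finset.le_sup (f := fun x : ℤ × ℤ => max x.1.natAbs x.2.natAbs) i.2
    constructor
    · rw [Int.abs_eq_natAbs]; exact_mod_cast (le_max_left _ _).trans h1
    · rw [Int.abs_eq_natAbs]; exact_mod_cast (le_max_right _ _).trans h1
  obtain ⟨Φ, hΦ, hΦ2⟩ := exists_block (M := M) hd ψ hψ x (rad R) hr
    (by rw [Fintype.card_coe]; exact hM1) hM2 (by nlinarith)
    (fun u a b => rdm_shift ψ hψ hT (fun i => toTorus L (x i)) u a b)
  refine ⟨Φ, hΦ, ?_⟩
  intro L' _ hL' a b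
  obtain ⟨h1, h2⟩ := block_main (L := L') hd Φ hΦ x (rad R) hr (Finset.Ico (rad R) (M - 1 - rad R))
    (fun k hk => by rw [Finset.mem_Ico] at hk; omega)
    (by rw [Finset.nonempty_Ico]; omega) (by nlinarith)
    (by rw [Fintype.card_coe]; nlinarith)
  have h3 := h2 a b
  rw [hΦ2 a b] at h3
  unfold redState
  simp only [Matrix.smul_apply, smul_eq_mul]
  rw [hψ]
  simp only [Complex.ofReal_one, inv_one, one_mul]
  refine h3.trans ?_
  rw [Nat.card_Ico]
  have h4 : ((M - 1 - rad R - rad R : ℕ) : ℝ) = (M : ℝ) - 1 - rad R - rad R := by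
    rw [Nat.cast_sub (by omega), Nat.cast_sub (by omega), Nat.cast_sub (by omega)]
    simp
  rw [h4]
  have hM0 : (0 : ℝ) < (M : ℝ) + 3 := by positivity
  have h5 : 4 * (1 - ((M : ℝ) - 1 - rad R - rad R) / (M + 3)) = 8 * ((rad R : ℝ) + 2) / (M + 3) := by
    field_simp
    ring
  rw [h5]
  have hdp : (0 : ℝ) < (d : ℝ) ^ R.card := by
    have : (0 : ℝ) < d := by exact_mod_cast (by omega : 0 < d)
    positivity
  rw [div_le_div_iff₀ hM0 (by positivity)]
  rw [div_le_iff₀ hε] at hM3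
  have h6 : (d : ℝ) ^ (2 * R.card) = ((d : ℝ) ^ R.card) ^ 2 := by
    rw [← pow_mul]; congr 1; ring
  rw [h6] at hM3
  nlinarith

/-- a finite set of block states -/
theorem exists_net (d : ℕ) (hd : 2 ≤ d) (R : Finset (ℤ × ℤ)) (ε : ℝ) (hε : 0 < ε) (M : ℕ)
    [NeZero M] (hM : M = side d R ε) :
    ∃ L₀ N : ℕ, ∃ Φ : Fin N → (Fin M × Fin M → Fin d) → ℂ,
      (M + 2) * (M + 2) ≤ L₀ ∧ (∀ i, normSq (Φ i) = 1) ∧
      ∀ (L : ℕ) [NeZero L], L₀ ≤ L → ∀ ψ : (Site L → Fin d) → ℂ, normSq ψ = 1 →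
      TransInv ψ → ∃ i, ∀ (L' : ℕ) [NeZero L'], L₀ ≤ L' → ∀ a b,
          ‖redState R (contract (tens hd (Φ i)) L') a b - redState R ψ a b‖
            ≤ 3 / 4 * (ε / ((d : ℝ) ^ R.card) ^ 2) := by
  classical
  obtain ⟨L₀, hL₀, H⟩ := entry_approx d hd R ε hε M hM
  have hdp : (0 : ℝ) < (d : ℝ) ^ R.card := by
    have : (0 : ℝ) < d := by exact_mod_cast (by omega : 0 < d)
    positivity
  set δ : ℝ := ε / (4 * ((d : ℝ) ^ R.card) ^ 2) with hδ
  have hδ0 : 0 < δ := by positivity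
  let X := (R → Fin d) → (R → Fin d) → ℂ
  let S : Set X := {ρ | ∃ (L : ℕ) (_ : NeZero L) (ψ : (Site L → Fin d) → ℂ), L₀ ≤ L ∧
    normSq ψ = 1 ∧ TransInv ψ ∧ ρ = fun a b => redState R ψ a b}
  have hS : TotallyBounded S := by
    have h1 : S ⊆ Metric.closedBall (0 : X) 1 := by
      rintro ρ ⟨L, _, ψ, hL, hψ, hT, rfl⟩
      rw [mem_closedBall_zero_iff, pi_norm_le_iff_of_nonneg zero_le_one]
      intro a
      rw [pi_norm_le_iff_of_nonneg zero_le_one]
      intro b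
      unfold redState
      simp only [Matrix.smul_apply, smul_eq_mul]
      rw [hψ]
      simp only [Complex.ofReal_one, inv_one, one_mul]
      exact (rdm_bound _ _ _ _).trans hψ.le
    exact (isCompact_closedBall (0 : X) 1).totallyBounded.subset h1
  obtain ⟨t, htS, htf, ht⟩ := hS.exists_subset (Metric.dist_mem_uniformity hδ0)
  -- enumerate
  set T := htf.toFinset with hT
  have hmem : ∀ i : Fin T.card, ((T.equivFin.symm i : T) : X) ∈ S := fun i =>
    htS (htf.mem_toFinset.1 (T.equivFin.symm i).2)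
  choose Lf hNZ ψf hLf hψf hTf hρf using hmem
  choose Φ hΦ1 hΦ2 using fun i => @H (Lf i) (hNZ i) (hLf i) (ψf i) (hψf i) (hTf i)
  refine ⟨L₀, T.card, Φ, hL₀, hΦ1, ?_⟩
  intro L _ hL ψ hψ hTψ
  have h1 : (fun a b => redState R ψ a b : X) ∈ S := ⟨L, ‹_›, ψ, hL, hψ, hTψ, rfl⟩
  obtain ⟨y, hy, hy2⟩ := Set.mem_iUnion₂.1 (ht h1)
  have hyT : y ∈ T := htf.mem_toFinset.2 hy
  refine ⟨T.equivFin ⟨y, hyT⟩, ?_⟩
  intro L' _ hL' a b
  have h2 := hΦ2 (T.equivFin ⟨y, hyT⟩) L' hL' a b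
  have h3 : y = fun a b => redState R (ψf (T.equivFin ⟨y, hyT⟩)) a b := by
    have := hρf (T.equivFin ⟨y, hyT⟩)
    rw [Equiv.symm_apply_apply] at this
    exact this
  have h4 : ‖redState R ψ a b - y a b‖ ≤ δ := by
    have h5 : dist (fun a b => redState R ψ a b : X) y < δ := hy2
    have h6 := (dist_le_pi_dist (fun a b => redState R ψ a b : X) y a).trans h5.le
    have h7 := (dist_le_pi_dist (fun b => redState R ψ a b) (y a) b).trans h6
    rwa [dist_eq_norm] at h7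
  have h5 : redState R (contract (tens hd (Φ (T.equivFin ⟨y, hyT⟩))) L') a b - redState R ψ a b =
      (redState R (contract (tens hd (Φ (T.equivFin ⟨y, hyT⟩))) L') a b -
        redState R (ψf (T.equivFin ⟨y, hyT⟩)) a b) - (redState R ψ a b - y a b) := by
    have h6 : y a b = redState R (ψf (T.equivFin ⟨y, hyT⟩)) a b := congrFun (congrFun h3 a) b
    rw [h6]
    ring
  rw [h5]
  refine (norm_sub_le _ _).trans ?_
  refine (add_le_add h2 h4).trans (le_of_eq ?_)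
  rw [hδ]
  field_simp
  norm_num

end Pool.Agent.T9h50.PL
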