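import Pool.Agent.H4R2.Peps

/-! Direct sums of tensor networks with weights `(2 cos (π θ L²))^k`. -/

set_option autoImplicit false
set_option linter.unusedSectionVars false

open scoped BigOperators
open Finset
open Pool.Agent.H4R2

noncomputable section

namespace Pool.Agent.T9h50.PL

/-- a sum over functions which vanishes off the constants -/
lemma sum_const {V J : Type*} [Fintype V] [DecidableEq V] [Nonempty V] [Fintype J]
    (F : (V → J) → ℂ) (h : ∀ f, F f ≠ 0 → ∃ c, f = fun _ => c) :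
    ∑ f, F f = ∑ c, F (fun _ => c) := by
  classical
  have hinj : Function.Injective (fun (c : J) (_ : V) => c) := by
    intro a b hab
    obtain ⟨v⟩ := ‹Nonempty V›
    exact congrFun hab v
  rw [← Finset.sum_image (f := F) (g := fun (c : J) (_ : V) => c) (s := Finset.univ)
    (fun a _ b _ hab => hinj hab)]
  symm
  refine Finset.sum_subset (Finset.subset_univ _) fun f _ hf => ?_
  by_contra h0
  obtain ⟨c, rfl⟩ := h f h0
  exact hf (Finset.mem_image_of_mem _ (Finset.mem_univ c))

lemma cycle_const {L : ℕ} [NeZero L] {J : Type*} (f : ZMod L → J) (h : ∀ x, f (x - 1) = f x)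
    (x : ZMod L) : f x = f 0 := by
  have h1 : ∀ n : ℕ, f (n : ZMod L) = f 0 := by
    intro n
    induction n with
    | zero => simp
    | succ n ih =>
      have := h ((n + 1 : ℕ) : ZMod L)
      rw [← this, ← ih]
      congr 1
      push_cast
      ring
  have := h1 x.val
  rwa [ZMod.natCast_zmod_val] at this

/-- the phase of a label -/
def ph1 (θ : ℝ) (b : Bool) : ℂ :=
  if b then Complex.exp (Complex.I * (Real.pi * θ)) else Complex.exp (-(Complex.I * (Real.pi * θ)))

/-- the phase of `k` labels -/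
def ph (θ : ℝ) {k : ℕ} (b : Fin k → Bool) : ℂ := ∏ i, ph1 θ (b i)

/-- the weight of size `L` -/
def wgt (θ : ℝ) (k L : ℕ) : ℂ := (((2 * Real.cos (Real.pi * (θ * (L : ℝ) ^ 2))) ^ k : ℝ) : ℂ)

lemma ph1_sum (θ : ℝ) (L : ℕ) :
    ∑ b : Bool, ph1 θ b ^ (L ^ 2) = ((2 * Real.cos (Real.pi * (θ * (L : ℝ) ^ 2)) : ℝ) : ℂ) := by
  rw [Fintype.sum_bool]
  simp only [ph1, if_true]
  rw [← Complex.exp_nat_mul, if_neg (by decide), ← Complex.exp_nat_mul]
  push_cast
  rw [Complex.two_cos]
  congr 2 <;> ring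

lemma ph_sum (θ : ℝ) (k L : ℕ) : ∑ b : Fin k → Bool, ph θ b ^ (L ^ 2) = wgt θ k L := by
  classical
  have h6 := (Finset.prod_univ_sum (fun _ : Fin k => (Finset.univ : Finset Bool))
    (fun _ b => ph1 θ b ^ (L ^ 2))).symm
  rw [Fintype.piFinset_univ] at h6
  unfold ph
  simp only [← Finset.prod_pow]
  rw [h6, ph1_sum, Finset.prod_const, Finset.card_univ, Fintype.card_fin]
  unfold wgt
  push_cast
  ring

lemma torus_const {L : ℕ} [NeZero L] {J : Type*} (j : Site L → J)
    (h : ∀ x : Site L, j (x.1 - 1, x.2) = j x ∧ j (x.1, x.2 - 1) = j x) : ∃ c, j = fun _ => c := by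
  refine ⟨j (0, 0), funext fun x => ?_⟩
  have h4 := cycle_const (fun a => j (a, x.2)) (fun a => (h (a, x.2)).1) x.1
  have h5 := cycle_const (fun a => j (0, a)) (fun a => (h (0, a)).2) x.2
  exact h4.trans h5

section dsum

variable {J K : Type*} [Fintype J] [DecidableEq J] [Fintype K] [DecidableEq K] {d k : ℕ}

open Classical in
/-- The direct sum over `j` of the networks with horizontal rule `HC`, vertical rule `VC` and site
weights `w j`, the `j`-th one multiplied by the weight of the angle `θ j`. -/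
def dsum (HC VC : K → K → Prop) (w : J → Fin d → K → ℂ) (θ : J → ℝ) (k : ℕ) :
    Fin d → ((J × (Fin k → Bool)) × K) → ((J × (Fin k → Bool)) × K) →
      ((J × (Fin k → Bool)) × K) → ((J × (Fin k → Bool)) × K) → ℂ :=
  ruleTensor (fun a b => a.1 = b.1 ∧ HC a.2 b.2) (fun a b => a.1 = b.1 ∧ VC a.2 b.2)
    (fun s a => w a.1.1 s a.2 * ph (θ a.1.1) a.1.2)

open Classical in
theorem contract_dsum (HC VC : K → K → Prop) (w : J → Fin d → K → ℂ) (θ : J → ℝ) (L : ℕ)
    [NeZero L] (s : Site L → Fin d) :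
    contract (dsum HC VC w θ k) L s =
      ∑ j, wgt (θ j) k L * contract (ruleTensor HC VC (w j)) L s := by
  unfold dsum
  rw [contract_ruleTensor]
  -- split the labels
  let E : (Site L → (J × (Fin k → Bool)) × K) ≃ (Site L → J × (Fin k → Bool)) × (Site L → K) :=
    ⟨fun h => (fun x => (h x).1, fun x => (h x).2),
      fun p x => (p.1 x, p.2 x), fun _ => rfl, fun _ => rfl⟩
  set G : (Site L → J × (Fin k → Bool)) × (Site L → K) → ℂ := fun p =>
    ∏ x : Site L, (if (p.1 (x.1 - 1, x.2) = p.1 x ∧ HC (p.2 (x.1 - 1, x.2)) (p.2 x)) ∧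
      (p.1 (x.1, x.2 - 1) = p.1 x ∧ VC (p.2 (x.1, x.2 - 1)) (p.2 x)) then
      w (p.1 x).1 (s x) (p.2 x) * ph (θ (p.1 x).1) (p.1 x).2 else 0) with hG
  have h2 : ∑ h : Site L → (J × (Fin k → Bool)) × K, ∏ x : Site L,
      (if ((h (x.1 - 1, x.2)).1 = (h x).1 ∧ HC (h (x.1 - 1, x.2)).2 (h x).2) ∧
        ((h (x.1, x.2 - 1)).1 = (h x).1 ∧ VC (h (x.1, x.2 - 1)).2 (h x).2) then
        w (h x).1.1 (s x) (h x).2 * ph (θ (h x).1.1) (h x).1.2 else 0) = ∑ p, G p :=
    Fintype.sum_equiv E _ _ fun h => rfl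
  rw [h2, Fintype.sum_prod_type]
  rw [sum_const (fun j : Site L → J × (Fin k → Bool) => ∑ y, G (j, y))]
  · rw [Fintype.sum_prod_type]
    refine Finset.sum_congr rfl fun j _ => ?_
    rw [contract_ruleTensor, ← ph_sum, Finset.sum_mul]
    refine Finset.sum_congr rfl fun b _ => ?_
    rw [Finset.mul_sum]
    refine Finset.sum_congr rfl fun y _ => ?_
    have h7 : ph (θ j) b ^ (L ^ 2) = ∏ _x : Site L, ph (θ j) b := by
      rw [Finset.prod_const, Finset.card_univ, Fintype.card_prod, ZMod.card, sq]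
    rw [hG, h7, ← Finset.prod_mul_distrib]
    refine Finset.prod_congr rfl fun x _ => ?_
    simp only [true_and]
    split_ifs
    · ring
    · ring
  · intro j hj
    obtain ⟨y, _, hy⟩ := Finset.exists_ne_zero_of_sum_ne_zero hj
    rw [hG, Finset.prod_ne_zero_iff] at hy
    refine torus_const j fun x => ?_
    have h4 := hy x (Finset.mem_univ _)
    by_contra hc
    rw [if_neg (fun h => hc ⟨h.1.1, h.2.1⟩)] at h4
    exact h4 rfl

end dsum

end Pool.Agent.T9h50.PL
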