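import Pool.Agent.H4R2.Rdm

/-! Reduced states depend continuously on the vector, uniformly in the size of the system. -/

set_option autoImplicit false
set_option linter.unusedSectionVars false

open scoped BigOperators
open Finset
open Pool.Agent.H4R2

noncomputable section

namespace Pool.Agent.T9h50.PL

variable {V ι : Type*} {d : ℕ} [Fintype V] [DecidableEq V]

open Classical in
lemma ker_sum_le (j : ι → V) (a b : ι → Fin d) (u : (V → Fin d) → ℝ) (hu : ∀ s, 0 ≤ u s) :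
    ∑ s : V → Fin d, ∑ t : V → Fin d, (if Ker j a b s t then u s + u t else 0) ≤ 2 * ∑ s, u s := by
  have h0 : ∑ s : V → Fin d, ∑ t : V → Fin d, (if Ker j a b s t then u s + u t else 0) =
      ∑ s : V → Fin d, ∑ t : V → Fin d, (if Ker j a b s t then u s else 0) +
      ∑ s : V → Fin d, ∑ t : V → Fin d, (if Ker j a b s t then u t else 0) := by
    rw [← Finset.sum_add_distrib]
    refine Finset.sum_congr rfl fun s _ => ?_
    rw [← Finset.sum_add_distrib]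
    refine Finset.sum_congr rfl fun t _ => ?_
    split_ifs <;> simp
  have h2 : ∑ s : V → Fin d, ∑ t : V → Fin d, (if Ker j a b s t then u s else 0) ≤ ∑ s, u s := by
    refine Finset.sum_le_sum fun s _ => ?_
    by_cases hs : ∃ t, Ker j a b s t
    · obtain ⟨t, ht⟩ := hs
      rw [Finset.sum_eq_single t]
      · rw [if_pos ht]
      · intro t' _ hne
        rw [if_neg]
        intro h'
        exact hne (h'.unique_right ht)
      · intro hc; exact absurd (Finset.mem_univ _) hc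
    · push Not at hs
      rw [Finset.sum_eq_zero (fun t _ => by rw [if_neg (hs t)])]
      exact hu s
  have h3 : ∑ s : V → Fin d, ∑ t : V → Fin d, (if Ker j a b s t then u t else 0) ≤ ∑ t, u t := by
    rw [Finset.sum_comm]
    refine Finset.sum_le_sum fun t _ => ?_
    by_cases hs : ∃ s, Ker j a b s t
    · obtain ⟨s, ht⟩ := hs
      rw [Finset.sum_eq_single s]
      · rw [if_pos ht]
      · intro s' _ hne
        rw [if_neg]
        intro h'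
        exact hne (h'.unique_left ht)
      · intro hc; exact absurd (Finset.mem_univ _) hc
    · push Not at hs
      rw [Finset.sum_eq_zero (fun s _ => by rw [if_neg (hs s)])]
      exact hu t
  rw [h0]
  linarith

/-- the main estimate -/
lemma rdm_sub_le (j : ι → V) (φ χ : (V → Fin d) → ℂ) (a b : ι → Fin d) (δ P : ℝ) (hδ : 0 < δ)
    (hδ1 : δ ≤ 1) (hφ : normSq φ = P) (hχ : normSq χ ≤ δ ^ 2 * P) :
    ‖rdm j (φ + χ) a b - rdm j φ a b‖ ≤ 3 * δ * P := by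
  classical
  have hP : 0 ≤ P := hφ ▸ normSq_nonneg φ
  set u : (V → Fin d) → ℝ := fun s => δ / 2 * ‖φ s‖ ^ 2 + (1 / (2 * δ) + 1 / 2) * ‖χ s‖ ^ 2 with hu
  have hu0 : ∀ s, 0 ≤ u s := by intro s; rw [hu]; positivity
  have h1 : ‖rdm j (φ + χ) a b - rdm j φ a b‖ ≤
      ∑ s : V → Fin d, ∑ t : V → Fin d, (if Ker j a b s t then u s + u t else 0) := by
    rw [rdm_apply, rdm_apply, ← Finset.sum_sub_distrib]
    refine (norm_sum_le _ _).trans (Finset.sum_le_sum fun s _ => ?_)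
    rw [← Finset.sum_sub_distrib]
    refine (norm_sum_le _ _).trans (Finset.sum_le_sum fun t _ => ?_)
    split_ifs with hK
    · have e1 : (φ + χ) s * (starRingEnd ℂ) ((φ + χ) t) - φ s * (starRingEnd ℂ) (φ t) =
          φ s * (starRingEnd ℂ) (χ t) + χ s * (starRingEnd ℂ) (φ t) +
            χ s * (starRingEnd ℂ) (χ t) := by
        simp only [Pi.add_apply, map_add]
        ring
      rw [e1]
      have h2 : ‖φ s * (starRingEnd ℂ) (χ t) + χ s * (starRingEnd ℂ) (φ t) +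
          χ s * (starRingEnd ℂ) (χ t)‖ ≤ ‖φ s‖ * ‖χ t‖ + ‖χ s‖ * ‖φ t‖ + ‖χ s‖ * ‖χ t‖ := by
        refine (norm_add_le _ _).trans (add_le_add ((norm_add_le _ _).trans (add_le_add ?_ ?_)) ?_)
        all_goals rw [norm_mul, RCLike.norm_conj]
      refine h2.trans ?_
      have hyoung : ∀ x y : ℝ, x * y ≤ δ / 2 * x ^ 2 + 1 / (2 * δ) * y ^ 2 := by
        intro x y
        have h3 : δ / 2 * x ^ 2 + 1 / (2 * δ) * y ^ 2 - x * y = (δ * x - y) ^ 2 / (2 * δ) := by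
          field_simp
          ring
        have h4 : 0 ≤ (δ * x - y) ^ 2 / (2 * δ) := by positivity
        linarith
      have h5 := hyoung ‖φ s‖ ‖χ t‖
      have h6 := hyoung ‖φ t‖ ‖χ s‖
      have h7 : ‖χ s‖ * ‖χ t‖ ≤ 1 / 2 * ‖χ s‖ ^ 2 + 1 / 2 * ‖χ t‖ ^ 2 := by
        nlinarith [sq_nonneg (‖χ s‖ - ‖χ t‖)]
      rw [hu]
      simp only
      linarith
    · simp
  refine h1.trans ((ker_sum_le j a b u hu0).trans ?_)
  have h2 : ∑ s, u s = δ / 2 * P + (1 / (2 * δ) + 1 / 2) * normSq χ := by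
    rw [hu, Finset.sum_add_distrib, ← Finset.mul_sum, ← Finset.mul_sum, ← hφ]
    rfl
  rw [h2]
  have h3 : (1 / (2 * δ) + 1 / 2) * normSq χ ≤ (1 / (2 * δ) + 1 / 2) * (δ ^ 2 * P) := by
    gcongr
  have h4 : (1 / (2 * δ) + 1 / 2) * (δ ^ 2 * P) = δ / 2 * P + δ ^ 2 / 2 * P := by
    field_simp
  have h5 : δ ^ 2 / 2 * P ≤ δ / 2 * P := by
    have : δ ^ 2 ≤ δ := by nlinarith
    nlinarith
  rw [h4] at h3
  linarith

lemma normSq_sub_le {S : Type*} [Fintype S] (φ χ : S → ℂ) (δ P : ℝ) (hδ : 0 < δ) (hδ1 : δ ≤ 1)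
    (hφ : normSq φ = P) (hχ : normSq χ ≤ δ ^ 2 * P) : |normSq (φ + χ) - P| ≤ 3 * δ * P := by
  have hP : 0 ≤ P := hφ ▸ (Finset.sum_nonneg (fun _ _ => by positivity) : 0 ≤ normSq φ)
  have h0 : normSq (φ + χ) - P = ∑ s, (‖φ s + χ s‖ ^ 2 - ‖φ s‖ ^ 2) := by
    rw [← hφ, Finset.sum_sub_distrib]
    rfl
  rw [h0]
  refine (Finset.abs_sum_le_sum_abs _ _).trans ?_
  have h1 : ∀ s ∈ Finset.univ, |‖φ s + χ s‖ ^ 2 - ‖φ s‖ ^ 2| ≤
      δ * ‖φ s‖ ^ 2 + (1 / δ + 1) * ‖χ s‖ ^ 2 := by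
    intro s _
    have h2 : ‖φ s + χ s‖ ≤ ‖φ s‖ + ‖χ s‖ := norm_add_le _ _
    have h3 : ‖φ s‖ - ‖χ s‖ ≤ ‖φ s + χ s‖ := by
      have := norm_sub_norm_le (φ s) (-χ s)
      rw [norm_neg, sub_neg_eq_add] at this
      exact this
    have h4 : 2 * ‖φ s‖ * ‖χ s‖ ≤ δ * ‖φ s‖ ^ 2 + 1 / δ * ‖χ s‖ ^ 2 := by
      have h5 : δ * ‖φ s‖ ^ 2 + 1 / δ * ‖χ s‖ ^ 2 - 2 * ‖φ s‖ * ‖χ s‖ =
          (δ * ‖φ s‖ - ‖χ s‖) ^ 2 / δ := by
        field_simp
        ring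
      have h6 : 0 ≤ (δ * ‖φ s‖ - ‖χ s‖) ^ 2 / δ := by positivity
      linarith
    have h7 : 0 ≤ ‖φ s‖ := norm_nonneg _
    have h8 : 0 ≤ ‖χ s‖ := norm_nonneg _
    have h9 : 0 ≤ ‖φ s + χ s‖ := norm_nonneg _
    rw [abs_le]
    constructor
    · have h10 : ‖φ s‖ ^ 2 - 2 * ‖φ s‖ * ‖χ s‖ - ‖χ s‖ ^ 2 ≤ ‖φ s + χ s‖ ^ 2 := by
        by_cases hc : ‖φ s‖ ≤ ‖χ s‖
        · nlinarith
        · push Not at hc
          nlinarith
      linarith
    · nlinarith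
  refine (Finset.sum_le_sum h1).trans ?_
  rw [Finset.sum_add_distrib, ← Finset.mul_sum, ← Finset.mul_sum]
  have h2 : (1 / δ + 1) * (∑ s, ‖χ s‖ ^ 2) ≤ (1 / δ + 1) * (δ ^ 2 * P) := by
    gcongr
    exact hχ
  have h3 : (1 / δ + 1) * (δ ^ 2 * P) = δ * P + δ ^ 2 * P := by
    field_simp
  have h4 : δ ^ 2 * P ≤ δ * P := by
    have : δ ^ 2 ≤ δ := by nlinarith
    nlinarith
  have h5 : ∑ s, ‖φ s‖ ^ 2 = P := hφ
  rw [h5]
  linarith

/-- normalised version -/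
lemma nrdm_sub_le (j : ι → V) (φ χ : (V → Fin d) → ℂ) (a b : ι → Fin d) (δ P : ℝ) (hδ : 0 < δ)
    (hδ1 : δ ≤ 1 / 6) (hP : 0 < P) (hφ : normSq φ = P) (hχ : normSq χ ≤ δ ^ 2 * P) :
    0 < normSq (φ + χ) ∧ ‖((normSq (φ + χ) : ℝ) : ℂ)⁻¹ * rdm j (φ + χ) a b -
      ((normSq φ : ℝ) : ℂ)⁻¹ * rdm j φ a b‖ ≤ 6 * δ := by
  have h1 := rdm_sub_le j φ χ a b δ P hδ (by linarith) hφ hχ
  have h2 := normSq_sub_le φ χ δ P hδ (by linarith) hφ hχ
  rw [abs_le] at h2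
  have h3 : 0 < normSq (φ + χ) := by nlinarith
  refine ⟨h3, ?_⟩
  set Q := normSq (φ + χ) with hQ
  have hb : ‖rdm j (φ + χ) a b‖ ≤ Q := rdm_bound j (φ + χ) a b
  rw [hφ]
  have hQc : (Q : ℂ) ≠ 0 := by exact_mod_cast h3.ne'
  have hPc : (P : ℂ) ≠ 0 := by exact_mod_cast hP.ne'
  have e1 : (Q : ℂ)⁻¹ * rdm j (φ + χ) a b - (P : ℂ)⁻¹ * rdm j φ a b =
      ((P - Q : ℝ) : ℂ) * (P : ℂ)⁻¹ * ((Q : ℂ)⁻¹ * rdm j (φ + χ) a b) +
        (P : ℂ)⁻¹ * (rdm j (φ + χ) a b - rdm j φ a b) := by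
    push_cast
    field_simp
    ring
  rw [e1]
  refine (norm_add_le _ _).trans ?_
  rw [norm_mul, norm_mul, norm_mul, norm_mul, norm_inv, norm_inv, Complex.norm_real,
    Complex.norm_real, Complex.norm_real, Real.norm_eq_abs, Real.norm_eq_abs, Real.norm_eq_abs,
    abs_of_pos hP, abs_of_pos h3]
  have h4 : |P - Q| ≤ 3 * δ * P := by
    rw [abs_le]
    constructor <;> linarith
  have h5 : |P - Q| * P⁻¹ ≤ 3 * δ := by
    rw [← div_eq_mul_inv, div_le_iff₀ hP]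
    exact h4
  have h6 : Q⁻¹ * ‖rdm j (φ + χ) a b‖ ≤ 1 := by
    rw [inv_mul_le_iff₀ h3]
    linarith
  have h7 : P⁻¹ * ‖rdm j (φ + χ) a b - rdm j φ a b‖ ≤ 3 * δ := by
    rw [inv_mul_le_iff₀ hP]
    linarith
  have h8 : 0 ≤ Q⁻¹ * ‖rdm j (φ + χ) a b‖ := by positivity
  have h9 : 0 ≤ |P - Q| * P⁻¹ := by positivity
  nlinarith

end Pool.Agent.T9h50.PL
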