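import Pool.Agent.T9h50.PE.Nest
import Pool.Agent.T9h50.PL.Net
import Pool.Agent.T9h50.PL.Stab

/-! Selection of one term of a superposition by angles. -/

set_option autoImplicit false
set_option linter.unusedSectionVars false

open scoped BigOperators
open Finset
open Pool.Agent.H4R2

noncomputable section

namespace Pool.Agent.T9h50.PL

lemma cos_small (y x : ℝ) (k : ℤ) (hy : y ≤ 1 / 4) (h : |x - 1 / 2 - k| ≤ y) :
    |2 * Real.cos (Real.pi * x)| ≤ 2 * Real.sin (Real.pi * y) := by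
  have hpi := Real.pi_pos
  have h1 : Real.pi * x = (Real.pi * (x - 1 / 2 - k)) + k * Real.pi + Real.pi / 2 := by ring
  have h2 : |Real.cos (Real.pi * x)| = |Real.sin (Real.pi * (x - 1 / 2 - k))| := by
    rw [h1, Real.cos_add_pi_div_two, abs_neg, Real.sin_add_int_mul_pi, abs_mul]
    simp
  have h3 : |Real.pi * (x - 1 / 2 - k)| ≤ Real.pi * y := by
    rw [abs_mul, abs_of_pos hpi]
    gcongr
  have h4 : |Real.sin (Real.pi * (x - 1 / 2 - k))| = Real.sin |Real.pi * (x - 1 / 2 - k)| :=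
    Real.abs_sin_eq_sin_abs_of_abs_le_pi (h3.trans (by nlinarith))
  have h5 : Real.sin |Real.pi * (x - 1 / 2 - k)| ≤ Real.sin (Real.pi * y) :=
    Real.sin_le_sin_of_le_of_le_pi_div_two (by
      have := abs_nonneg (Real.pi * (x - 1 / 2 - k)); linarith) (by nlinarith) h3
  rw [abs_mul, h2, h4, abs_two]
  linarith

lemma cos_big (y x : ℝ) (k : ℤ) (hy : y ≤ 1 / 4) (h : |x - k| ≤ y) :
    2 * Real.cos (Real.pi * y) ≤ |2 * Real.cos (Real.pi * x)| := by
  have hpi := Real.pi_pos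
  have h1 : Real.pi * x = Real.pi * (x - k) + k * Real.pi := by ring
  have h2 : |Real.cos (Real.pi * x)| = |Real.cos (Real.pi * (x - k))| := by
    rw [h1, Real.cos_add_int_mul_pi, abs_mul]
    simp
  have h3 : |Real.pi * (x - k)| ≤ Real.pi * y := by
    rw [abs_mul, abs_of_pos hpi]
    gcongr
  have h4 : Real.cos (Real.pi * y) ≤ Real.cos |Real.pi * (x - k)| :=
    Real.cos_le_cos_of_nonneg_of_le_pi (abs_nonneg _) (by nlinarith) h3
  rw [Real.cos_abs] at h4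
  rw [abs_mul, h2, abs_two]
  have h5 := h4.trans (le_abs_self _)
  linarith

lemma norm_wgt (θ : ℝ) (k L : ℕ) :
    ‖wgt θ k L‖ = |2 * Real.cos (Real.pi * (θ * (L : ℝ) ^ 2))| ^ k := by
  unfold wgt
  rw [Complex.norm_real, Real.norm_eq_abs, abs_pow]

/-- Angles such that at all sizes `L` of a lacunary set the weight of the prescribed term is
larger than the other weights. -/
theorem angles (lam : ℝ) (h0 : 0 < lam) (hlam : 3 < lam ^ 2) :
    ∃ q : ℝ, 0 < q ∧ q < 1 ∧ ∀ {J : Type} (𝓛 : Set ℕ)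
      (_ : ∀ L ∈ 𝓛, ∀ L' ∈ 𝓛, L < L' → lam * L ≤ L') (σ : ℕ → J),
      ∃ θ : J → ℝ, ∀ L ∈ 𝓛, 1 ≤ L → ∀ k : ℕ, wgt (θ (σ L)) k L ≠ 0 ∧
        ∀ j, j ≠ σ L → ‖wgt (θ j) k L‖ ≤ q ^ k * ‖wgt (θ (σ L)) k L‖ := by
  classical
  set l : ℝ := 1 / (lam ^ 2 - 1) with hl
  have hl0 : 0 < l := by
    rw [hl]
    apply div_pos one_pos
    linarith
  have hl1 : l < 1 / 2 := by
    rw [hl, div_lt_div_iff₀ (by linarith) (by norm_num)]
    linarith
  have hlr : 1 + l ≤ lam ^ 2 * l := by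
    have h3 : (lam ^ 2 - 1) * l = 1 := by
      rw [hl]
      exact mul_one_div_cancel (by linarith)
    linarith
  have hpi := Real.pi_pos
  set y : ℝ := l / 2 with hy
  have hy0 : 0 < y := by positivity
  have hy1 : y < 1 / 4 := by rw [hy]; linarith
  set c1 : ℝ := 2 * Real.cos (Real.pi * y) with hc1
  set c2 : ℝ := 2 * Real.sin (Real.pi * y) with hc2
  have hc2pos : 0 < c2 := by
    have := Real.sin_pos_of_pos_of_lt_pi (x := Real.pi * y) (by positivity) (by nlinarith)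
    linarith
  have hc12 : c2 < c1 := by
    have h3 : Real.sin (Real.pi * y) < Real.cos (Real.pi * y) := by
      rw [← Real.sin_pi_div_two_sub]
      apply Real.sin_lt_sin_of_lt_of_le_pi_div_two
      · nlinarith
      · nlinarith
      · nlinarith
    linarith
  have hc1pos : 0 < c1 := hc2pos.trans hc12
  refine ⟨c2 / c1, by positivity, by rw [div_lt_one hc1pos]; exact hc12, ?_⟩
  intro J 𝓛 h𝓛 σ
  have h1 : ∀ j : J, ∃ θ : ℝ, ∀ L ∈ 𝓛 ∩ Set.Ici 1,
      ∃ k : ℤ, |θ * (L : ℝ) ^ 2 - (if σ L = j then 0 else 1 / 2) - k| ≤ l / 2 := fun j =>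
    PE.nest (l := l) (r := lam ^ 2) hl0 hlr (fun L => (L : ℝ) ^ 2)
    (fun L => if σ L = j then 0 else 1 / 2) (𝓛 ∩ Set.Ici 1)
    (fun L hL => by
      have : (1 : ℝ) ≤ L := by exact_mod_cast hL.2
      exact one_le_pow₀ this)
    (fun L hL L' hL' h => by
      have h5 := h𝓛 L hL.1 L' hL'.1 h
      have h6 : (lam * L) ^ 2 ≤ (L' : ℝ) ^ 2 := by gcongr
      rw [mul_pow] at h6
      exact h6)
  choose θ hθ using h1
  have hbig : ∀ L ∈ 𝓛, 1 ≤ L → c1 ≤ |2 * Real.cos (Real.pi * (θ (σ L) * (L : ℝ) ^ 2))| := by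
    intro L hL hL1
    obtain ⟨k, hk⟩ := hθ (σ L) L ⟨hL, hL1⟩
    rw [if_pos rfl, sub_zero] at hk
    exact cos_big y _ k hy1.le hk
  refine ⟨θ, fun L hL hL1 k => ⟨?_, fun j hj => ?_⟩⟩
  · rw [← norm_pos_iff, norm_wgt]
    exact pow_pos (hc1pos.trans_le (hbig L hL hL1)) k
  · obtain ⟨m, hm⟩ := hθ j L ⟨hL, hL1⟩
    rw [if_neg (Ne.symm hj)] at hm
    rw [norm_wgt, norm_wgt, ← mul_pow]
    refine pow_le_pow_left₀ (abs_nonneg _) ?_ k
    refine (cos_small y _ m hy1.le hm).trans ?_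
    have h3 := hbig L hL hL1
    calc c2 = c2 / c1 * c1 := by field_simp
      _ ≤ c2 / c1 * |2 * Real.cos (Real.pi * (θ (σ L) * (L : ℝ) ^ 2))| := by gcongr

lemma normSq_sum_le {S J : Type*} [Fintype S] (s : Finset J) (f : J → S → ℂ) (B : ℝ)
    (h : ∀ j ∈ s, normSq (f j) ≤ B) : normSq (fun x => ∑ j ∈ s, f j x) ≤ (s.card : ℝ) ^ 2 * B := by
  unfold normSq
  have h1 : ∀ x ∈ Finset.univ, ‖∑ j ∈ s, f j x‖ ^ 2 ≤ (s.card : ℝ) * ∑ j ∈ s, ‖f j x‖ ^ 2 := by
    intro x _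
    have h2 : ‖∑ j ∈ s, f j x‖ ≤ ∑ j ∈ s, ‖f j x‖ := norm_sum_le _ _
    have h3 : ‖∑ j ∈ s, f j x‖ ^ 2 ≤ (∑ j ∈ s, ‖f j x‖) ^ 2 := by gcongr
    exact h3.trans sq_sum_le_card_mul_sum_sq
  refine (Finset.sum_le_sum h1).trans ?_
  rw [← Finset.mul_sum, Finset.sum_comm]
  have h2 : ∑ j ∈ s, ∑ x, ‖f j x‖ ^ 2 ≤ ∑ _j ∈ s, B := Finset.sum_le_sum h
  rw [Finset.sum_const, nsmul_eq_mul] at h2
  calc (s.card : ℝ) * ∑ j ∈ s, ∑ x, ‖f j x‖ ^ 2 ≤ (s.card : ℝ) * (s.card * B) := by gcongr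
    _ = (s.card : ℝ) ^ 2 * B := by ring

lemma redState_smul {d L : ℕ} [NeZero L] (R : Finset (ℤ × ℤ)) (φ : (Site L → Fin d) → ℂ) (c : ℂ)
    (hc : c ≠ 0) : redState R (c • φ) = redState R φ := by
  ext a b
  unfold redState
  simp only [Matrix.smul_apply, smul_eq_mul]
  rw [rdm_smul, normSq_smul]
  have h1 : ((‖c‖ ^ 2 : ℝ) : ℂ) ≠ 0 := by
    have : ‖c‖ ^ 2 ≠ 0 := pow_ne_zero 2 (norm_ne_zero_iff.2 hc)
    exact_mod_cast this
  push_cast at h1 ⊢
  rw [mul_inv, mul_mul_mul_comm, inv_mul_cancel₀ h1, one_mul]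

/-- one term dominates -/
theorem redState_dom {J : Type*} [Fintype J] {d L : ℕ} [NeZero L] (R : Finset (ℤ × ℤ))
    (φ : J → (Site L → Fin d) → ℂ) (w : J → ℂ) (j₀ : J) (P η : ℝ) (hP : 0 < P)
    (hφ : ∀ j, normSq (φ j) = P) (hη : 0 < η) (hw0 : w j₀ ≠ 0)
    (hw : ∀ j, j ≠ j₀ → ‖w j‖ ≤ η * ‖w j₀‖) (hδ : Fintype.card J * η ≤ 1 / 6) :
    0 < normSq (fun s => ∑ j, w j * φ j s) ∧ ∀ a b,
      ‖redState R (fun s => ∑ j, w j * φ j s) a b - redState R (φ j₀) a b‖ ≤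
        6 * (Fintype.card J * η) := by
  classical
  have hJ : 0 < Fintype.card J := Fintype.card_pos_iff.2 ⟨j₀⟩
  have hJr : (0 : ℝ) < Fintype.card J := by exact_mod_cast hJ
  set χ : (Site L → Fin d) → ℂ := fun s => ∑ j ∈ Finset.univ.erase j₀, (w j / w j₀) * φ j s with hχ
  have e1 : (fun s => ∑ j, w j * φ j s) = w j₀ • (φ j₀ + χ) := by
    funext s
    rw [← Finset.add_sum_erase _ _ (Finset.mem_univ j₀)]
    simp only [Pi.smul_apply, Pi.add_apply, smul_eq_mul, hχ, mul_add, Finset.mul_sum]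
    congr 1
    refine Finset.sum_congr rfl fun j _ => ?_
    field_simp
  have h1 : normSq χ ≤ (Fintype.card J * η) ^ 2 * P := by
    have h2 := normSq_sum_le (Finset.univ.erase j₀) (fun j => (w j / w j₀) • φ j) (η ^ 2 * P) (by
      intro j hj
      rw [normSq_smul, hφ, norm_div]
      have h3 := hw j (Finset.ne_of_mem_erase hj)
      have h4 : ‖w j‖ / ‖w j₀‖ ≤ η := by
        rw [div_le_iff₀ (norm_pos_iff.2 hw0)]
        exact h3
      have h5 : (‖w j‖ / ‖w j₀‖) ^ 2 ≤ η ^ 2 := by gcongr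
      nlinarith)
    have h3 : ((Finset.univ.erase j₀).card : ℝ) ^ 2 ≤ (Fintype.card J : ℝ) ^ 2 := by
      have : (Finset.univ.erase j₀).card ≤ Fintype.card J := Finset.card_le_univ _
      gcongr
    refine h2.trans ?_
    have h4 : 0 ≤ η ^ 2 * P := by positivity
    nlinarith
  have h2 : 0 < normSq (φ j₀ + χ) := by
    have h3 := normSq_sub_le (φ j₀) χ (Fintype.card J * η) P (by positivity) (by linarith)
      (hφ j₀) h1
    rw [abs_le] at h3
    nlinarith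
  rw [e1]
  refine ⟨?_, fun a b => ?_⟩
  · rw [normSq_smul]
    have := norm_pos_iff.2 hw0
    positivity
  · rw [redState_smul R _ _ hw0]
    have h3 := (nrdm_sub_le (fun x : R => toTorus L x) (φ j₀) χ a b
      (Fintype.card J * η) P (by positivity) hδ hP (hφ j₀) h1).2
    unfold redState
    simp only [Matrix.smul_apply, smul_eq_mul]
    exact h3

end Pool.Agent.T9h50.PL
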